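import Pool.Agent.Helper84.SPN.St

/-! SPN module SP1: `Sp_2(F) = SL_2(F)`. -/

set_option autoImplicit false

namespace Pool.Agent.Helper13.SPN

open Pool.Agent.Helper84.SPN Pool.Agent.Helper75.MX Pool.Agent.Helper70.ML

variable {F : Type} [Field F]

/-- the action of a two by two matrix on `VV 1 F` -/
def act (g : Matrix (Fin 2) (Fin 2) F) : VV 1 F →ₗ[F] VV 1 F where
  toFun v := (fun _ => g 0 0 * v.1 0 + g 0 1 * v.2 0, fun _ => g 1 0 * v.1 0 + g 1 1 * v.2 0)
  map_add' v w := by
    ext i
    · simp only [Prod.fst_add, Prod.snd_add, Pi.add_apply]; ring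
    · simp only [Prod.fst_add, Prod.snd_add, Pi.add_apply]; ring
  map_smul' c v := by
    ext i
    · simp only [Prod.smul_fst, Prod.smul_snd, Pi.smul_apply, smul_eq_mul, RingHom.id_apply]; ring
    · simp only [Prod.smul_fst, Prod.smul_snd, Pi.smul_apply, smul_eq_mul, RingHom.id_apply]; ring

theorem act_apply (g : Matrix (Fin 2) (Fin 2) F) (v : VV 1 F) : act g v =
    (fun _ => g 0 0 * v.1 0 + g 0 1 * v.2 0, fun _ => g 1 0 * v.1 0 + g 1 1 * v.2 0) := rfl

theorem ext1 {v w : VV 1 F} (h1 : v.1 0 = w.1 0) (h2 : v.2 0 = w.2 0) : v = w := by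
  apply Prod.ext
  · funext i
    rw [Fin.fin_one_eq_zero i]
    exact h1
  · funext i
    rw [Fin.fin_one_eq_zero i]
    exact h2

theorem act_mul (g h : Matrix (Fin 2) (Fin 2) F) (v : VV 1 F) : act (g * h) v = act g (act h v) := by
  apply ext1
  · simp only [act_apply, Matrix.mul_apply, Fin.sum_univ_two]
    ring
  · simp only [act_apply, Matrix.mul_apply, Fin.sum_univ_two]
    ring

theorem act_one (v : VV 1 F) : act (1 : Matrix (Fin 2) (Fin 2) F) v = v := by
  apply ext1
  · simp [act_apply]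
  · simp [act_apply]

theorem om_act (g : Matrix (Fin 2) (Fin 2) F) (v w : VV 1 F) :
    om (act g v) (act g w) = (g 0 0 * g 1 1 - g 0 1 * g 1 0) * om v w := by
  simp only [om, act_apply, Fin.sum_univ_one, Finset.univ_unique, Fin.default_eq_zero, Finset.sum_singleton]
  ring

/-- the element of the symplectic group -/
def el (g : SLn 2 F) : SpG 1 F :=
  ⟨LinearEquiv.ofLinearMap (act g.1) (act (g⁻¹).1)
    (by
      apply LinearMap.ext
      intro v
      show act g.1 (act (g⁻¹).1 v) = v
      rw [← act_mul, ← Matrix.SpecialLinearGroup.coe_mul, mul_inv_cancel, Matrix.SpecialLinearGroup.coe_one, act_one])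
    (by
      apply LinearMap.ext
      intro v
      show act (g⁻¹).1 (act g.1 v) = v
      rw [← act_mul, ← Matrix.SpecialLinearGroup.coe_mul, inv_mul_cancel, Matrix.SpecialLinearGroup.coe_one, act_one]),
    by
      intro v w
      show om (act g.1 v) (act g.1 w) = om v w
      have h := g.2
      rw [Matrix.det_fin_two] at h
      rw [om_act, h, one_mul]⟩

theorem el_apply (g : SLn 2 F) (v : VV 1 F) : (el g).1 v = act g.1 v := rfl

/-- the homomorphism -/
def hom (F : Type) [Field F] : SLn 2 F →* SpG 1 F where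
  toFun := el
  map_one' := by
    apply Subtype.ext
    apply LinearEquiv.ext
    intro v
    show act (1 : SLn 2 F).1 v = v
    rw [Matrix.SpecialLinearGroup.coe_one, act_one]
  map_mul' g h := by
    apply Subtype.ext
    apply LinearEquiv.ext
    intro v
    show act (g * h).1 v = act g.1 (act h.1 v)
    rw [Matrix.SpecialLinearGroup.coe_mul, act_mul]

/-- first basis vector -/
def ve : VV 1 F := (fun _ => 1, fun _ => 0)

/-- second basis vector -/
def vf : VV 1 F := (fun _ => 0, fun _ => 1)

theorem dec (v : VV 1 F) : v = v.1 0 • ve + v.2 0 • vf := by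
  apply ext1
  · simp [ve, vf]
  · simp [ve, vf]

theorem hom_inj : Function.Injective (hom F) := by
  intro g h hgh
  have h1 : ∀ v, act g.1 v = act h.1 v := fun v =>
    congrArg (fun x : SpG 1 F => x.1 v) hgh
  have he := h1 ve
  have hf := h1 vf
  rw [act_apply, act_apply] at he hf
  have e1 := congrFun (congrArg Prod.fst he) 0
  have e2 := congrFun (congrArg Prod.snd he) 0
  have f1 := congrFun (congrArg Prod.fst hf) 0
  have f2 := congrFun (congrArg Prod.snd hf) 0
  simp only [ve, vf, mul_one, mul_zero, add_zero, zero_add] at e1 e2 f1 f2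
  apply Subtype.ext
  ext i j
  fin_cases i <;> fin_cases j
  · exact e1
  · exact f1
  · exact e2
  · exact f2

theorem hom_surj : Function.Surjective (hom F) := by
  intro h
  have hom1 : om (h.1 ve) (h.1 vf) = 1 := by
    rw [h.2 ve vf]
    simp [om, ve, vf]
  have hdet : (h.1 ve).1 0 * (h.1 vf).2 0 - (h.1 ve).2 0 * (h.1 vf).1 0 = 1 := by
    rw [← hom1]
    simp [om]
  refine ⟨⟨!![(h.1 ve).1 0, (h.1 vf).1 0; (h.1 ve).2 0, (h.1 vf).2 0], ?_⟩, ?_⟩
  · rw [Matrix.det_fin_two_of]
    linear_combination hdet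
  · apply Subtype.ext
    apply LinearEquiv.ext
    intro v
    show act _ v = h.1 v
    have h2 : h.1 v = v.1 0 • h.1 ve + v.2 0 • h.1 vf := by
      conv_lhs => rw [dec v]
      rw [map_add, map_smul, map_smul]
    rw [h2]
    apply ext1
    · simp [act_apply]
      ring
    · simp [act_apply]
      ring

/-- SP1 -/
theorem hSP1 : StSP1 := by
  intro F _ _ h3
  obtain ⟨h1, h2⟩ := Pool.Agent.Helper84.MXP.slAll 2 F le_rfl (fun h => h3 h.2) ⊥ bot_le
  have h4 : Good 6 (SLn 2 F ⧸ (⊥ : Subgroup (SLn 2 F))) := good_of_mixlen h1 h2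
  exact (pISO _ _ ⟨(QuotientGroup.quotientBot (G := SLn 2 F)).trans
    (MulEquiv.ofBijective (hom F) ⟨hom_inj, hom_surj⟩)⟩).2.1 6 h4

end Pool.Agent.Helper13.SPN
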